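import Pool.Agent.helper16.EXC.Spec3

set_option autoImplicit false

open Finset

namespace Pool.Agent.EXC

theorem ZGP : ZGP_stmt := by
  intro G _ _ x r j k
  constructor
  · rintro ⟨h1, g, hg, hr⟩
    refine ⟨h1, g, fun i => ?_, ?_⟩
    · have hle : Subgroup.closure (insert (x ^ j) (Set.range (MulAut.conj : G →* MulAut G))) ≤
          Subgroup.closure (insert x (Set.range (MulAut.conj : G →* MulAut G))) := by
        rw [Subgroup.closure_le]
        intro y hy
        rcases Set.mem_insert_iff.1 hy with h | h
        · rw [h]
          exact Subgroup.pow_mem _ (Subgroup.subset_closure (Set.mem_insert x _)) j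
        · exact Subgroup.subset_closure (Set.mem_insert_of_mem _ h)
      exact hle (hg i)
    · have hle : Subgroup.closure (Set.range fun i => g i * x ^ j * (g i)⁻¹) ≤
          Subgroup.closure (Set.range fun i => g i * x * (g i)⁻¹) := by
        rw [Subgroup.closure_le]
        rintro _ ⟨i, rfl⟩
        have h2 : g i * x ^ j * (g i)⁻¹ = (g i * x * (g i)⁻¹) ^ j := conj_pow.symm
        have h3 : g i * x * (g i)⁻¹ ∈ Subgroup.closure (Set.range fun i => g i * x * (g i)⁻¹) :=
          Subgroup.subset_closure (Set.mem_range_self (f := fun i => g i * x * (g i)⁻¹) i)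
        have h4 := Subgroup.pow_mem _ h3 j
        rw [← h2] at h4
        exact h4
      exact hr.trans (Subgroup.card_dvd_of_le hle)
  · intro hr
    refine ⟨le_refl 1, fun _ => 1, fun _ => Subgroup.one_mem _, ?_⟩
    have h2 : Subgroup.zpowers x ≤ Subgroup.closure (Set.range fun _ : Fin 1 => (1 : MulAut G) * x * (1 : MulAut G)⁻¹) := by
      rw [Subgroup.zpowers_le]
      apply Subgroup.subset_closure
      exact ⟨0, by simp⟩
    have h3 := Subgroup.card_dvd_of_le h2
    rw [Nat.card_zpowers] at h3
    exact hr.trans h3

end Pool.Agent.EXC
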